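import Pool.Agent.Helper76.SH.Defs

/-!
# MP_506470_co, module I: the two degenerate cases
-/

namespace SetHom

/-- Set-homogeneous graphs are vertex-transitive. -/
theorem trans_of_sh {V : Type*} {G : SimpleGraph V} (hs : SetHomogeneous G) (u v : V) :
    ∃ φ : G ≃g G, φ u = v := by
  classical
  have e : G.induce (({u} : Finset V) : Set V) ≃g G.induce (({v} : Finset V) : Set V) :=
    { toFun := fun _ => ⟨v, by simp⟩
      invFun := fun _ => ⟨u, by simp⟩
      left_inv := fun x => by
        have hx := x.2
        simp only [Finset.coe_singleton, Set.mem_singleton_iff] at hx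
        exact Subtype.ext hx.symm
      right_inv := fun x => by
        have hx := x.2
        simp only [Finset.coe_singleton, Set.mem_singleton_iff] at hx
        exact Subtype.ext hx.symm
      map_rel_iff' := fun {x y} => by
        have hx := x.2
        have hy := y.2
        simp only [Finset.coe_singleton, Set.mem_singleton_iff] at hx hy
        simp [hx, hy] }
  obtain ⟨φ, hφ⟩ := hs {u} {v} ⟨e⟩
  refine ⟨φ, ?_⟩
  have : φ u ∈ (({v} : Finset V) : Set V) := by
    rw [← hφ]
    exact Set.mem_image_of_mem _ (by simp)
  simpa using this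

/-- Without edges the one-point extension property is trivial. -/
theorem ope_of_empty {V : Type*} [Infinite V] {G : SimpleGraph V} (h : ∀ x y, ¬ G.Adj x y) :
    OPE G := by
  classical
  intro U f _ _ a _
  obtain ⟨b, hb⟩ := Infinite.exists_notMem_finset (U.image f)
  refine ⟨b, fun x hx he => hb (he ▸ Finset.mem_image_of_mem f hx), fun x _ => ?_⟩
  simp [h]

theorem ope_of_noP {V : Type*} [Infinite V] {G : SimpleGraph V} (hs : SetHomogeneous G)
    (tf : TF G) (hP : ¬ ∃ a b c, G.Adj a b ∧ G.Adj b c ∧ a ≠ c) : OPE G := by
  classical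
  by_cases hE : ∃ p q, G.Adj p q
  · obtain ⟨p, q, hpq⟩ := hE
    have huniq : ∀ a b c, G.Adj a b → G.Adj b c → a = c := fun a b c h1 h2 => by
      by_contra hne
      exact hP ⟨a, b, c, h1, h2, hne⟩
    have hnb : ∀ x, ∃ y, G.Adj x y := fun x => by
      obtain ⟨φ, hφ⟩ := trans_of_sh hs p x
      refine ⟨φ q, ?_⟩
      rw [← hφ]
      exact φ.map_rel_iff.2 hpq
    choose m hm using hnb
    intro U f hinj hadj a ha
    by_cases hu : ∃ u ∈ U, G.Adj a u
    · obtain ⟨u, hu, hau⟩ := hu
      refine ⟨m (f u), fun x hx he => ?_, fun x hx => ?_⟩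
      · have h1 : G.Adj (f x) (f u) := by rw [he]; exact (hm (f u)).symm
        have h2 := (hadj x hx u hu).1 h1
        have h3 : x = a := huniq x u a h2 hau.symm
        exact ha (h3 ▸ hx)
      · constructor
        · intro h
          have h1 : f u = f x := huniq _ _ _ (hm (f u)) h
          have h2 : u = x := hinj hu hx h1
          exact h2 ▸ hau
        · intro h
          have h1 : u = x := huniq _ _ _ hau.symm h
          rw [← h1]
          exact (hm (f u)).symm
    · push Not at hu
      obtain ⟨b, hb⟩ := Infinite.exists_notMem_finset (U.image f ∪ U.image (fun x => m (f x)))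
      simp only [Finset.mem_union, Finset.mem_image, not_or, not_exists, not_and] at hb
      refine ⟨b, fun x hx => hb.1 x hx, fun x hx => ?_⟩
      constructor
      · intro h
        exact absurd (huniq _ _ _ h (hm (f x))).symm (hb.2 x hx)
      · intro h
        exact absurd h (hu x hx)
  · push Not at hE
    exact ope_of_empty hE

theorem ope_of_noC {V : Type*} [Infinite V] {G : SimpleGraph V} (hs : SetHomogeneous G)
    (tf : TF G)
    (hC : ¬ ∃ a b c, G.Adj a b ∧ ¬ G.Adj a c ∧ ¬ G.Adj b c ∧ c ≠ a ∧ c ≠ b) : OPE G := by
  classical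
  by_cases hE : ∃ p q, G.Adj p q
  · obtain ⟨p, q, hpq⟩ := hE
    -- every vertex is adjacent to exactly one end of an edge
    have hedge : ∀ a b c, G.Adj a b → (G.Adj b c ↔ ¬ G.Adj a c) := by
      intro a b c hab
      constructor
      · intro hbc hac
        exact tf a b c hab hbc hac
      · intro hac
        by_contra hbc
        rcases eq_or_ne c a with rfl | h1
        · exact hbc hab.symm
        rcases eq_or_ne c b with rfl | h2
        · exact hac hab
        exact hC ⟨a, b, c, hab, hac, hbc, h1, h2⟩
    have hnb : ∀ x, ∃ y, G.Adj x y := fun x => by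
      obtain ⟨φ, hφ⟩ := trans_of_sh hs p x
      refine ⟨φ q, ?_⟩
      rw [← hφ]
      exact φ.map_rel_iff.2 hpq
    -- degrees are infinite
    have hinf : ∀ x, (G.neighborSet x).Infinite := by
      intro x hfin
      have hall : ∀ y, (G.neighborSet y).Finite := by
        intro y
        obtain ⟨φ, hφ⟩ := trans_of_sh hs x y
        refine (hfin.image φ).subset ?_
        intro z hz
        refine ⟨φ.symm z, ?_, by simp⟩
        have hz' : G.Adj y z := hz
        rw [SimpleGraph.mem_neighborSet, ← φ.map_rel_iff]
        simpa [hφ] using hz'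
      have hun : (Set.univ : Set V) ⊆ G.neighborSet p ∪ G.neighborSet q := by
        intro z _
        by_cases hz : G.Adj p z
        · exact Or.inl hz
        · exact Or.inr ((hedge p q z hpq).2 hz)
      exact Set.infinite_univ (((hall p).union (hall q)).subset hun)
    have hcinf : ∀ x, {y | ¬ G.Adj x y}.Infinite := by
      intro x
      obtain ⟨z, hz⟩ := hnb x
      refine (hinf z).mono ?_
      intro y hy
      have hy' : G.Adj z y := hy
      exact (hedge x z y hz).1 hy'
    have hneq : ∀ a b c, ¬ G.Adj a b → (G.Adj b c ↔ G.Adj a c) := by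
      intro a b c hab
      obtain ⟨z, hz⟩ := hnb a
      have h1 : G.Adj z b := (hedge a z b hz).2 hab
      rw [hedge z b c h1, hedge a z c hz, not_not]
    intro U f hinj hadj a ha
    rcases U.eq_empty_or_nonempty with rfl | ⟨u, hu⟩
    · exact ⟨a, by simp, by simp⟩
    by_cases hau : G.Adj a u
    · obtain ⟨b, hb, hb'⟩ := (hinf (f u)).exists_notMem_finset (U.image f)
      have hb1 : G.Adj (f u) b := hb
      refine ⟨b, fun x hx he => hb' (he ▸ Finset.mem_image_of_mem f hx), fun x hx => ?_⟩
      rw [hedge (f u) b (f x) hb1, hadj u hu x hx, hedge u a x hau.symm]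
    · obtain ⟨b, hb, hb'⟩ := (hcinf (f u)).exists_notMem_finset (U.image f)
      have hb1 : ¬ G.Adj (f u) b := hb
      refine ⟨b, fun x hx he => hb' (he ▸ Finset.mem_image_of_mem f hx), fun x hx => ?_⟩
      rw [hneq (f u) b (f x) hb1, hadj u hu x hx,
        hneq u a x (fun h => hau h.symm)]
  · push Not at hE
    exact ope_of_empty hE

end SetHom
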