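import Pool.Agent.Helper90.SH.FSDefs

/-! MP_506470_co : module FSh, uniqueness of good enumerations up to reversal -/

namespace SetHom
namespace FS

variable {V : Type*} {G : SimpleGraph V} {K : List V → Prop}

theorem fsh_antisymm {x y : V} : ∀ {l : List V}, l.Nodup → [x, y].Sublist l →
    [y, x].Sublist l → False
  | [], _, h1, _ => by simp at h1
  | a :: t, hn, h1, h2 => by
    rw [List.nodup_cons] at hn
    rcases List.sublist_cons_iff.1 h1 with h1 | ⟨r, hr, h1⟩
    · rcases List.sublist_cons_iff.1 h2 with h2 | ⟨r', hr', h2⟩
      · exact fsh_antisymm hn.2 h1 h2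
      · have e1 : y = a := (List.cons_eq_cons.1 hr').1
        have : y ∈ t := h1.subset (by simp)
        exact hn.1 (e1 ▸ this)
    · have e1 : x = a := (List.cons_eq_cons.1 hr).1
      rcases List.sublist_cons_iff.1 h2 with h2 | ⟨r', hr', h2⟩
      · have : x ∈ t := h2.subset (by simp)
        exact hn.1 (e1 ▸ this)
      · have e2 : y = a := (List.cons_eq_cons.1 hr').1
        have e3 : [y] = r := (List.cons_eq_cons.1 hr).2
        have : y ∈ t := h1.subset (by rw [← e3]; simp)
        exact hn.1 (e2 ▸ this)

/-- two nodup lists which are permutations of each other and compatible are equal -/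
theorem fsh_eq {l m : List V} (hm : m.Nodup) (hp : l.Perm m)
    (h : ∀ x y, [x, y].Sublist l → [x, y].Sublist m) : l = m := by
  have h1 : l.Pairwise (fun x y => [x, y].Sublist m) :=
    List.pairwise_iff_forall_sublist.2 fun hxy => h _ _ hxy
  have h2 : m.Pairwise (fun x y => [x, y].Sublist m) :=
    List.pairwise_iff_forall_sublist.2 fun hxy => hxy
  refine List.Perm.eq_of_pairwise ?_ h1 h2 hp
  intro a b _ _ hab hba
  exact (fsh_antisymm hm hab hba).elim

theorem fsh_pair (hi : InitO G K) (hf : NoFin G K) {x y : V} (h1 : K [x, y]) (h2 : K [y, x]) :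
    False := by
  obtain ⟨v, hv1, hv2⟩ := hi [x] [y] h1
  exact (hv2 y (by simp)).2 (hf y x v h2 (hv1 x (by simp)))

theorem fsh_M (h : GdL G K) (hm : Mono G K) (hi : InitO G K) (hf : FinO G K) {a b c : V}
    (h1 : K [a, b, c]) {x y z : V} (h2 : K [x, y, z]) (hp : [x, y, z].Perm [a, b, c]) :
    y = b := by
  have hn := h.nodup _ h2
  simp only [List.nodup_cons, List.mem_cons, List.not_mem_nil, or_false, not_or,
    not_false_eq_true, List.nodup_nil, and_true] at hn
  obtain ⟨⟨hxy, hxz⟩, hyz⟩ := hn
  have hx : x ∈ [a, b, c] := hp.subset (by simp)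
  have hy : y ∈ [a, b, c] := hp.subset (by simp)
  have hz : z ∈ [a, b, c] := hp.subset (by simp)
  simp only [List.mem_cons, List.not_mem_nil, or_false] at hx hy hz
  rcases hy with hy | hy | hy
  · exfalso
    obtain ⟨v, hv1, hv2⟩ := hi [a] [b, c] h1
    have hva := hv1 a (by simp)
    have hvb := (hv2 b (by simp)).2
    have hvc := (hv2 c (by simp)).2
    refine (hm x y z v h2).2 ⟨?_, by rw [hy]; exact hva, ?_⟩
    · rcases hx with hx | hx | hx
      · exact absurd (hx.trans hy.symm) hxy
      · rw [hx]; exact hvb
      · rw [hx]; exact hvc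
    · rcases hz with hz | hz | hz
      · exact absurd (hy.trans hz.symm) hyz
      · rw [hz]; exact hvb
      · rw [hz]; exact hvc
  · exact hy
  · exfalso
    obtain ⟨v, hv1, hv2⟩ := hf [a, b] [c] h1
    have hvc := hv2 c (by simp)
    have hva := (hv1 a (by simp)).2
    have hvb := (hv1 b (by simp)).2
    refine (hm x y z v h2).2 ⟨?_, by rw [hy]; exact hvc, ?_⟩
    · rcases hx with hx | hx | hx
      · rw [hx]; exact hva
      · rw [hx]; exact hvb
      · exact absurd (hx.trans hy.symm) hxy
    · rcases hz with hz | hz | hz
      · rw [hz]; exact hva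
      · rw [hz]; exact hvb
      · exact absurd (hy.trans hz.symm) hyz

theorem fsh_triple (h : GdL G K) (hm : Mono G K) (hi : InitO G K) (hf : FinO G K)
    {l l' : List V} (hl : K l) (hl' : K l') (hp : l'.Perm l) {x y z : V}
    (hs : [x, y, z].Sublist l) : [x, y, z].Sublist l' ∨ [z, y, x].Sublist l' := by
  classical
  set m := l'.filter (fun u => decide (u = x ∨ u = y ∨ u = z)) with hmdef
  have hml : m.Sublist l' := List.filter_sublist
  have hKm : K m := h.sub _ _ hl' hml
  have hK3 : K [x, y, z] := h.sub _ _ hl hs
  have hperm : m.Perm [x, y, z] := by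
    rw [List.perm_ext_iff_of_nodup (h.nodup _ hKm) (h.nodup _ hK3)]
    intro u
    rw [hmdef, List.mem_filter]
    simp only [decide_eq_true_eq, List.mem_cons, List.not_mem_nil, or_false]
    constructor
    · exact fun hu => hu.2
    · intro hu
      refine ⟨hp.symm.subset (hs.subset ?_), hu⟩
      simpa using hu
  have hlen : m.length = 3 := by simpa using hperm.length_eq
  obtain ⟨a, b, c, hmabc⟩ := List.length_eq_three.1 hlen
  rw [hmabc] at hml hKm hperm
  have hb : b = y := fsh_M h hm hi hf hK3 hKm hperm
  have hn := h.nodup _ hKm
  simp only [List.nodup_cons, List.mem_cons, List.not_mem_nil, or_false, not_or,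
    not_false_eq_true, List.nodup_nil, and_true] at hn
  obtain ⟨⟨hab, hac⟩, hbc⟩ := hn
  have ha : a ∈ [x, y, z] := hperm.subset (by simp)
  have hc : c ∈ [x, y, z] := hperm.subset (by simp)
  simp only [List.mem_cons, List.not_mem_nil, or_false] at ha hc
  subst hb
  rcases ha with ha | ha | ha
  · rcases hc with hc | hc | hc
    · exact absurd (ha.trans hc.symm) hac
    · exact absurd hc.symm hbc
    · left
      rw [← ha, ← hc]
      exact hml
  · exact absurd ha hab
  · rcases hc with hc | hc | hc
    · right
      rw [← ha, ← hc]
      exact hml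
    · exact absurd hc.symm hbc
    · exact absurd (ha.trans hc.symm) hac

/-- module FSh -/
theorem uq_of (h : GdL G K) (hm : Mono G K) (hi : InitO G K) (hf : FinO G K ∨ NoFin G K) :
    UQ K := by
  intro l l' hl hl' hp hlen
  rcases hf with hf | hf
  · match l, hlen, hl, hp with
    | x :: y :: t, hlen, hl, hp =>
      have hnl' := h.nodup _ hl'
      have ht : t ≠ [] := by
        rintro rfl
        simp at hlen
      have hsub2 : ∀ {u v w : V}, [u, v, w].Sublist l' → [u, v].Sublist l' ∧ [v, w].Sublist l' ∧
          [u, w].Sublist l' := by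
        intro u v w huvw
        refine ⟨?_, ?_, ?_⟩
        · exact List.Sublist.trans (by simp) huvw
        · exact List.Sublist.trans (by simp) huvw
        · exact List.Sublist.trans (by simp) huvw
      have htri : ∀ z w, [z, w].Sublist (y :: t) → [x, z, w].Sublist l' ∨ [w, z, x].Sublist l' :=
        fun z w hzw => fsh_triple h hm hi hf hl hl' hp (hzw.cons_cons x)
      obtain ⟨z0, t', rfl⟩ := List.exists_cons_of_ne_nil ht
      have hyz : ∀ z ∈ z0 :: t', [y, z].Sublist (y :: z0 :: t') := fun z hz =>
        (List.singleton_sublist.2 hz).cons_cons y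
      rcases htri y z0 (hyz z0 (by simp)) with h0 | h0
      · -- x before y
        left
        have hxy := (hsub2 h0).1
        have hx : ∀ z ∈ y :: z0 :: t', [x, z].Sublist l' := by
          intro z hz
          rcases List.mem_cons.1 hz with rfl | hz
          · exact hxy
          · rcases htri y z (hyz z hz) with h1 | h1
            · exact (hsub2 h1).2.2
            · exact (fsh_antisymm hnl' hxy (hsub2 h1).2.1).elim
        refine (fsh_eq hnl' hp.symm ?_).symm
        intro z w hzw
        rcases List.sublist_cons_iff.1 hzw with hzw | ⟨r, hr, hzw⟩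
        · rcases htri z w hzw with h1 | h1
          · exact (hsub2 h1).2.1
          · exact (fsh_antisymm hnl' (hx z (hzw.subset (by simp))) (hsub2 h1).2.1).elim
        · have e1 : z = x := (List.cons_eq_cons.1 hr).1
          have e2 : [w] = r := (List.cons_eq_cons.1 hr).2
          rw [e1]
          exact hx w (hzw.subset (by rw [← e2]; simp))
      · -- y before x
        right
        have hxy := (hsub2 h0).2.1
        have hx : ∀ z ∈ y :: z0 :: t', [z, x].Sublist l' := by
          intro z hz
          rcases List.mem_cons.1 hz with rfl | hz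
          · exact hxy
          · rcases htri y z (hyz z hz) with h1 | h1
            · exact (fsh_antisymm hnl' hxy (hsub2 h1).1).elim
            · exact (hsub2 h1).2.2
        have hrev : (x :: y :: z0 :: t') = l'.reverse := by
          refine fsh_eq (List.nodup_reverse.2 hnl') (hp.symm.trans (List.reverse_perm l').symm) ?_
          intro z w hzw
          have key : [w, z].Sublist l' := by
            rcases List.sublist_cons_iff.1 hzw with hzw | ⟨r, hr, hzw⟩
            · rcases htri z w hzw with h1 | h1
              · exact (fsh_antisymm hnl' (hx z (hzw.subset (by simp))) (hsub2 h1).1).elim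
              · exact (hsub2 h1).1
            · have e1 : z = x := (List.cons_eq_cons.1 hr).1
              have e2 : [w] = r := (List.cons_eq_cons.1 hr).2
              rw [e1]
              exact hx w (hzw.subset (by rw [← e2]; simp))
          have := List.reverse_sublist.2 key
          simpa using this
        rw [hrev, List.reverse_reverse]
  · left
    refine fsh_eq (h.nodup _ hl) hp ?_
    intro x y hxy
    have hK : K [x, y] := h.sub _ _ hl' hxy
    have hn := h.nodup _ hK
    have hne : x ≠ y := by simpa using hn
    have hnl := h.nodup _ hl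
    have hx : x ∈ l := hp.subset (hxy.subset (by simp))
    have hy : y ∈ l := hp.subset (hxy.subset (by simp))
    -- the two elements in l
    by_contra hcon
    have h1 : [y, x].Sublist l := by
      classical
      obtain ⟨p, q, rfl⟩ := List.append_of_mem hx
      rcases List.mem_append.1 hy with hy | hy
      · exact (List.singleton_sublist.2 hy).append ((List.nil_sublist q).cons_cons x)
      · rcases List.mem_cons.1 hy with hy | hy
        · exact absurd hy.symm hne
        · exact absurd ((List.nil_sublist p).append ((List.singleton_sublist.2 hy).cons_cons x)) hcon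
    exact fsh_pair hi hf hK (h.sub _ _ hl h1)

end FS
end SetHom
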