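import Pool.Agent.Helper90.SH.FSDefs

/-! MP_506470_co : module FSi, reversal and insertion -/

namespace SetHom
namespace FS

variable {V : Type*} {G : SimpleGraph V} {K : List V → Prop}

/-- a good list with at least three elements can be reversed, if final words are traces -/
theorem fsi_rev3 (hsh : SetHomogeneous G) (h : GdL G K) (hi : InitO G K) (hf : FinO G K)
    (hu : UQ K) (l : List V) (hl : K l) (hlen : 3 ≤ l.length) : K l.reverse := by
  have hn := h.nodup _ hl
  have hind := h.ind _ hl
  obtain ⟨v, hv1, hv2⟩ := hi (l.take 2) (l.drop 2) (by rw [List.take_append_drop]; exact hl)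
  obtain ⟨w, hw1, hw2⟩ := hf (l.take (l.length - 2)) (l.drop (l.length - 2))
    (by rw [List.take_append_drop]; exact hl)
  have hvi : ∀ i (hi : i < l.length), (G.Adj v l[i] ↔ i < 2) := by
    intro i hi
    constructor
    · intro hadj
      by_contra hge
      push Not at hge
      refine (hv2 l[i] ?_).2 hadj
      rw [List.mem_drop_iff_getElem]
      refine ⟨i - 2, by omega, ?_⟩
      congr 1
      omega
    · intro hlt
      apply hv1
      rw [List.mem_take_iff_getElem]
      exact ⟨i, by omega, rfl⟩
  have hwi : ∀ i (hi : i < l.length), (G.Adj w l[i] ↔ l.length - 2 ≤ i) := by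
    intro i hi
    constructor
    · intro hadj
      by_contra hge
      push Not at hge
      refine (hw1 l[i] ?_).2 hadj
      rw [List.mem_take_iff_getElem]
      exact ⟨i, by omega, rfl⟩
    · intro hle
      apply hw2
      rw [List.mem_drop_iff_getElem]
      refine ⟨i - (l.length - 2), by omega, ?_⟩
      congr 1
      omega
  have hvl : v ∉ l := fun hv => hind v hv l[0] (List.getElem_mem _) ((hvi 0 (by omega)).2 (by omega))
  have hwl : w ∉ l := fun hw => hind w hw l[l.length - 1] (List.getElem_mem _)
    ((hwi (l.length - 1) (by omega)).2 (by omega))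
  obtain ⟨φ, hφ⟩ := sh_list hsh (l ++ [v]) (l.reverse ++ [w])
    (by
      rw [List.nodup_append]
      refine ⟨hn, by simp, ?_⟩
      intro a ha b hb
      rw [List.mem_singleton] at hb
      rintro rfl
      exact hvl (hb ▸ ha))
    (by
      rw [List.nodup_append]
      refine ⟨List.nodup_reverse.2 hn, by simp, ?_⟩
      intro a ha b hb
      rw [List.mem_singleton] at hb
      rw [List.mem_reverse] at ha
      rintro rfl
      exact hwl (hb ▸ ha))
    (by simp) (by
      intro i h1 h2 j h3 h4
      simp only [List.length_append, List.length_cons, List.length_nil, zero_add,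
        List.length_reverse] at h1 h2 h3 h4
      rw [List.getElem_append, List.getElem_append, List.getElem_append, List.getElem_append]
      by_cases hi : i < l.length
      · by_cases hj : j < l.length
        · rw [dif_pos hi, dif_pos hj, dif_pos (by simpa using hi), dif_pos (by simpa using hj)]
          refine iff_of_false (hind _ (List.getElem_mem _) _ (List.getElem_mem _)) ?_
          rw [List.getElem_reverse, List.getElem_reverse]
          exact hind _ (List.getElem_mem _) _ (List.getElem_mem _)
        · rw [dif_pos hi, dif_neg hj, dif_pos (by simpa using hi), dif_neg (by simpa using hj)]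
          rw [List.getElem_reverse]
          simp only [List.getElem_singleton]
          rw [G.adj_comm, hvi, G.adj_comm, hwi]
          omega
      · by_cases hj : j < l.length
        · rw [dif_neg hi, dif_pos hj, dif_neg (by simpa using hi), dif_pos (by simpa using hj)]
          rw [List.getElem_reverse]
          simp only [List.getElem_singleton]
          rw [hvi, hwi]
          omega
        · rw [dif_neg hi, dif_neg hj, dif_neg (by simpa using hi), dif_neg (by simpa using hj)]
          simp only [List.getElem_singleton]
          exact iff_of_false G.irrefl G.irrefl)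
  have hmem : ∀ x, φ x ∈ l ∨ φ x = w ↔ x ∈ l ∨ x = v := by
    intro x
    have := hφ x
    simpa using this
  -- image of v
  have hφv : φ v = w := by
    have h0 : l[0] ∈ l := List.getElem_mem _
    have h1 : l[1] ∈ l := List.getElem_mem _
    have a0 : G.Adj (φ v) (φ l[0]) := φ.map_adj_iff.2 ((hvi 0 (by omega)).2 (by omega))
    have a1 : G.Adj (φ v) (φ l[1]) := φ.map_adj_iff.2 ((hvi 1 (by omega)).2 (by omega))
    rcases (hmem v).2 (Or.inr rfl) with hv | hv
    · exfalso
      have m0 : φ l[0] = w := by
        rcases (hmem l[0]).2 (Or.inl h0) with h2 | h2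
        · exact absurd a0 (hind _ hv _ h2)
        · exact h2
      have m1 : φ l[1] = w := by
        rcases (hmem l[1]).2 (Or.inl h1) with h2 | h2
        · exact absurd a1 (hind _ hv _ h2)
        · exact h2
      have h2 : l[0] = l[1] := φ.injective (m0.trans m1.symm)
      rw [hn.getElem_inj_iff] at h2
      omega
    · exact hv
  have hφl : ∀ x ∈ l, φ x ∈ l := by
    intro x hx
    rcases (hmem x).2 (Or.inl hx) with h1 | h1
    · exact h1
    · exfalso
      have : x = v := φ.injective (h1.trans hφv.symm)
      exact hvl (this ▸ hx)
  have hKm := h.img φ l hl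
  have hperm : (l.map φ).Perm l := by
    refine List.Subperm.perm_of_length_le (List.subperm_of_subset (h.nodup _ hKm) ?_) (by simp)
    intro y hy
    obtain ⟨x, hx, rfl⟩ := List.mem_map.1 hy
    exact hφl x hx
  rcases hu l (l.map φ) hl hKm hperm hlen with h1 | h1
  · exfalso
    have h2 : φ l[0] = l[0] := by
      have : (l.map φ)[0]'(by simp; omega) = l[0] := by simp only [h1]
      simpa using this
    have a0 : G.Adj (φ v) (φ l[0]) := φ.map_adj_iff.2 ((hvi 0 (by omega)).2 (by omega))
    rw [hφv, h2, hwi] at a0
    omega
  · rw [← h1]
    exact hKm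

theorem fsi_rev (hsh : SetHomogeneous G) (h : GdL G K) (hi : InitO G K) (hf : FinO G K)
    (hu : UQ K) (l : List V) (hl : K l) : K l.reverse := by
  obtain ⟨a, b, ha, hb, hab⟩ := h.ext hl 3 0
  have h1 := fsi_rev3 hsh h hi hf hu _ hab (by simp; omega)
  refine h.sub _ _ h1 ?_
  rw [List.reverse_sublist]
  exact (List.sublist_append_right a l).trans (List.sublist_append_left _ b)

theorem fsi_pair (hi : InitO G K) (hf : NoFin G K) {x y : V} (h1 : K [x, y]) (h2 : K [y, x]) :
    False := by
  obtain ⟨v, hv1, hv2⟩ := hi [x] [y] h1
  exact (hv2 y (by simp)).2 (hf y x v h2 (hv1 x (by simp)))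

/-- module FSi -/
theorem mc_of (hsh : SetHomogeneous G) (h : GdL G K) (hm : Mono G K) (hi : InitO G K)
    (hf : FinO G K ∨ NoFin G K) (hu : UQ K) : MC G K := by
  classical
  have hrev : (∀ l, K l → K l.reverse) ∨ NoFin G K := by
    rcases hf with hf | hf
    · exact Or.inl (fsi_rev hsh h hi hf hu)
    · exact Or.inr hf
  refine ⟨hsh, h, hm, hi, hu, hrev, ?_⟩
  intro l v hl hlen hvl hadj
  have hn := h.nodup _ hl
  obtain ⟨L, hL, hmem⟩ := h.enum (v :: l).toFinset (by
    intro x hx y hy
    rw [List.mem_toFinset, List.mem_cons] at hx hy
    rcases hx with rfl | hx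
    · rcases hy with rfl | hy
      · exact G.irrefl
      · exact hadj y hy
    · rcases hy with rfl | hy
      · exact fun h' => hadj x hx h'.symm
      · exact h.ind _ hl x hx y hy)
  have hvL : v ∈ L := by rw [hmem]; simp
  have hnL := h.nodup _ hL
  obtain ⟨p, q, rfl⟩ := List.append_of_mem hvL
  have hsub : (p ++ q).Sublist (p ++ v :: q) :=
    (List.Sublist.refl p).append (List.sublist_cons_self v q)
  have hK := h.sub _ _ hL hsub
  have hvpq : v ∉ p ++ q := by
    rw [List.nodup_middle, List.nodup_cons] at hnL
    exact hnL.1
  have hperm : (p ++ q).Perm l := by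
    rw [List.perm_ext_iff_of_nodup (h.nodup _ hK) hn]
    intro x
    have h1 := hmem x
    rw [List.mem_toFinset, List.mem_cons] at h1
    constructor
    · intro hx
      rcases h1.1 (hsub.subset hx) with h2 | h2
      · exact absurd (h2 ▸ hx) hvpq
      · exact h2
    · intro hx
      have h2 := h1.2 (Or.inr hx)
      rcases List.mem_append.1 h2 with h3 | h3
      · exact List.mem_append.2 (Or.inl h3)
      · rcases List.mem_cons.1 h3 with h4 | h4
        · exact absurd (h4 ▸ hx) hvl
        · exact List.mem_append.2 (Or.inr h4)
  have hor : p ++ q = l ∨ p ++ q = l.reverse := by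
    by_cases h3 : 3 ≤ l.length
    · exact hu l (p ++ q) hl hK hperm h3
    · have h2 : l.length = 2 := by omega
      obtain ⟨a, b, rfl⟩ := List.length_eq_two.1 h2
      have h4 : (p ++ q).length = 2 := hperm.length_eq.trans h2
      obtain ⟨c, d, hcd⟩ := List.length_eq_two.1 h4
      rw [hcd] at hperm ⊢
      have hn2 : [c, d].Nodup := hperm.nodup_iff.2 hn
      have hc : c ∈ [a, b] := hperm.subset (by simp)
      have hd : d ∈ [a, b] := hperm.subset (by simp)
      have hne : c ≠ d := by simpa using hn2
      simp only [List.mem_cons, List.not_mem_nil, or_false] at hc hd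
      rcases hc with rfl | rfl <;> rcases hd with rfl | rfl
      · exact absurd rfl hne
      · left; rfl
      · right; rfl
      · exact absurd rfl hne
  rcases hor with h1 | h1
  · exact ⟨p, q, h1.symm, hL⟩
  · rcases hrev with hr | hr
    · refine ⟨q.reverse, p.reverse, ?_, ?_⟩
      · rw [← List.reverse_append, h1, List.reverse_reverse]
      · have := hr _ hL
        rw [List.reverse_append, List.reverse_cons, List.append_assoc] at this
        simpa using this
    · exfalso
      rw [h1] at hK
      match l, hlen, hl, hK with
      | x :: y :: t, _, hl, hK =>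
        have h2 : K [x, y] := h.sub _ _ hl (by simp)
        have h3 : K [y, x] := h.sub _ _ hK (by
          have : [x, y].Sublist (x :: y :: t) := by simp
          simpa using List.reverse_sublist.2 this)
        exact fsi_pair hi hr h2 h3

end FS
end SetHom
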